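import Pool.Agent.Q283.FG.Stm3
import Pool.Agent.Q151.FT.KUC

/-! # Project FG (helper283), job KUC: points of trivial class are divisible by `2`, with the signs -/

set_option autoImplicit false

namespace Pool.Agent.Q65.FG

open Finset WeierstrassCurve
open Pool.Agent.TH841.SH (IsR)
open Pool.Agent.TH841.SH.D (Pt)
open Pool.Agent.Q283.FT (crv Rt df)
open Pool.Agent.Q283.FG
open Pool.Agent.Q151.FT (crv_isR sq_of_mul)

theorem kuc : S_KUC := by
  intro F _ _ e he L _ _ P a b hC ha hb
  have hinj : Function.Injective (algebraMap F L) := (algebraMap F L).injective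
  have : CharZero L := charZero_of_injective_algebraMap hinj
  have h2 : (2 : L) ≠ 0 := two_ne_zero
  have h01 : algebraMap F L (e 0) ≠ algebraMap F L (e 1) := fun h => by
    have := he.inj (hinj h)
    exact absurd this (by decide)
  have h02 : algebraMap F L (e 0) ≠ algebraMap F L (e 2) := fun h => by
    have := he.inj (hinj h)
    exact absurd this (by decide)
  have h12 : algebraMap F L (e 1) ≠ algebraMap F L (e 2) := fun h => by
    have := he.inj (hinj h)
    exact absurd this (by decide)
  have hR := crv_isR e he L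
  obtain ⟨ha0, hb0, hC⟩ := hC
  rcases hC with ⟨hP, -, -⟩ | ⟨x, y, hn, hP, hx0, hx1⟩
  · exact ⟨0, by rw [hP, add_zero]⟩
  have hd0 : df e 0 = e 1 - e 2 := rfl
  have hd1 : df e 1 = e 0 - e 2 := rfl
  have hd2 : df e 2 = e 0 - e 1 := rfl
  set E0 := algebraMap F L (e 0) with hE0
  set E1 := algebraMap F L (e 1) with hE1
  set E2 := algebraMap F L (e 2) with hE2
  have hey : y ^ 2 = (x - E0) * (x - E1) * (x - E2) := (hR.eqn x y).1 hn.1
  have key : ∃ s t w : L, x - E0 = s ^ 2 ∧ x - E1 = t ^ 2 ∧ x - E2 = w ^ 2 ∧ y = s * t * w := by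
    rcases hx0 with ⟨hx0, hs0⟩ | ⟨hx0, hs0⟩
    · obtain ⟨s, hs⟩ := sq_of_mul ha0 ha hs0
      have hs' : s ≠ 0 := by
        rintro rfl
        apply hx0
        linear_combination hs
      rcases hx1 with ⟨hx1, hs1⟩ | ⟨hx1, hs1⟩
      · obtain ⟨t, ht⟩ := sq_of_mul hb0 hb hs1
        have ht' : t ≠ 0 := by
          rintro rfl
          apply hx1
          linear_combination ht
        refine ⟨s, t, y / (s * t), hs, ht, ?_, ?_⟩
        · rw [div_pow, eq_div_iff (pow_ne_zero 2 (mul_ne_zero hs' ht')), hey, hs, ht]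
          ring
        · field_simp
      · obtain ⟨r, hr⟩ := sq_of_mul hb0 hb hs1
        rw [map_neg, map_mul, hd0, hd2, map_sub, map_sub, ← hE0, ← hE1, ← hE2] at hr
        have hy : y = 0 := by
          have : y ^ 2 = 0 := by
            rw [hey, hx1]
            ring
          exact pow_eq_zero_iff (two_ne_zero) |>.1 this
        refine ⟨s, 0, r / s, hs, ?_, ?_, ?_⟩
        · rw [hx1]
          ring
        · rw [div_pow, eq_div_iff (pow_ne_zero 2 hs'), ← hs, hx1, ← hr]
          ring
        · rw [hy]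
          ring
    · have hx1' : x ≠ E1 := by
        rw [hx0]
        exact h01
      rcases hx1 with ⟨hx1, hs1⟩ | ⟨hx1, hs1⟩
      · obtain ⟨t, ht⟩ := sq_of_mul hb0 hb hs1
        obtain ⟨r, hr⟩ := sq_of_mul ha0 ha hs0
        rw [map_mul, hd1, hd2, map_sub, map_sub, ← hE0, ← hE1, ← hE2] at hr
        have ht' : t ≠ 0 := by
          rintro rfl
          apply hx1
          linear_combination ht
        have hy : y = 0 := by
          have : y ^ 2 = 0 := by
            rw [hey, hx0]
            ring
          exact pow_eq_zero_iff (two_ne_zero) |>.1 this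
        refine ⟨0, t, r / t, ?_, ht, ?_, ?_⟩
        · rw [hx0]
          ring
        · rw [div_pow, eq_div_iff (pow_ne_zero 2 ht'), ← ht, hx0, ← hr]
        · rw [hy]
          ring
      · exact absurd hx1 hx1'
  obtain ⟨s, t, w, hs, ht, hw, hy⟩ := key
  let _ : DecidableEq L := Classical.decEq L
  obtain ⟨Q, hQ⟩ := hR.halve h2 h01 h02 h12 hn hs ht hw hy
  exact ⟨Q, hP.trans hQ⟩

end Pool.Agent.Q65.FG
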